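import Pool.Agent.E8helper59.TS.Stm3

/-!
# Project TS (MP_b907b5_co), piece TS26: averaging (helper9)
-/

set_option autoImplicit false
open MeasureTheory Set Filter Topology
open scoped Pointwise ENNReal

namespace Pool.Agent.E8helper9.TS

open Pool.Agent.E8helper59.TS

theorem haarPlane : (volume : Measure (ℝ × ℝ)).IsAddHaarMeasure := by
  rw [Measure.volume_eq_prod]
  infer_instance

theorem haarG (k m : ℕ) : (volume : Measure (G k m)).IsAddHaarMeasure := by
  have h1 := haarPlane
  have h2 : SigmaFinite (volume : Measure (ℝ × ℝ)) := by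
    rw [Measure.volume_eq_prod]
    infer_instance
  have h3 : (volume : Measure (Fin k → ℝ × ℝ)).IsAddHaarMeasure := by
    rw [volume_pi]
    infer_instance
  have h4 : SigmaFinite (volume : Measure (Fin k → ℝ × ℝ)) := by
    rw [volume_pi]
    infer_instance
  have h5 : (volume : Measure (Fin m → ℝ)).IsAddHaarMeasure := by
    rw [volume_pi]
    infer_instance
  have h6 : MeasurableAdd (Fin k → ℝ × ℝ) := inferInstance
  have h7 : MeasurableAdd (Fin m → ℝ) := inferInstance
  rw [Measure.volume_eq_prod]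
  exact Measure.prod.instIsAddHaarMeasure _ _

section
variable {V : Type} [NormedAddCommGroup V] [NormedSpace ℝ V] [MeasurableSpace V] [BorelSpace V]
  [FiniteDimensional ℝ V] (μ : Measure V) [μ.IsAddHaarMeasure]

omit [FiniteDimensional ℝ V] [NormedSpace ℝ V] in
theorem vol_trans (K : Set V) (t : V) : μ ((fun x => t + x) '' K) = μ K := by
  have e : (fun x => t + x) '' K = (fun x => (-t) + x) ⁻¹' K := by
    ext x
    simp only [Set.mem_image, Set.mem_preimage]
    constructor
    · rintro ⟨y, hy, rfl⟩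
      simpa using hy
    · intro hx
      exact ⟨-t + x, hx, by simp⟩
  rw [e, measure_preimage_add]

omit [NormedSpace ℝ V] [FiniteDimensional ℝ V] in
open Classical in
theorem count (Q W : Set V) (hQ : MeasurableSet Q) (hW : MeasurableSet W) (M : ℝ)
    (F : Finset V) (h1 : ∀ z : V, ((F.filter fun t => z - t ∈ Q).card : ℝ) ≤ M)
    (h2 : ∀ t ∈ F, ∀ z : V, z - t ∈ Q → z ∈ W) :
    (F.card : ℝ≥0∞) * μ Q ≤ ENNReal.ofReal M * μ W := by
  let Sl : V → Set V := fun t => (fun z => z - t) ⁻¹' Q
  have hSl : ∀ t, MeasurableSet (Sl t) := fun t => (measurable_sub_const t) hQ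
  have hvol : ∀ t, μ (Sl t) = μ Q := by
    intro t
    have e : Sl t = (fun z => z + (-t)) ⁻¹' Q := by
      ext z
      simp [Sl, sub_eq_add_neg]
    rw [e, measure_preimage_add_right]
  have e1 : (F.card : ℝ≥0∞) * μ Q = ∫⁻ z : V, ((F.filter fun t => z - t ∈ Q).card : ℝ≥0∞) ∂μ := by
    have e2 : ∀ z : V, ((F.filter fun t => z - t ∈ Q).card : ℝ≥0∞) =
        ∑ t ∈ F, (Sl t).indicator (fun _ => (1 : ℝ≥0∞)) z := by
      intro z
      simp only [indicator_apply]
      rw [Finset.card_filter]
      push_cast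
      rfl
    simp_rw [e2]
    rw [lintegral_finsetSum _ (fun t _ => measurable_const.indicator (hSl t))]
    simp only [lintegral_indicator (hSl _), lintegral_one, Measure.restrict_apply_univ, hvol]
    simp
  rw [e1]
  calc ∫⁻ z : V, ((F.filter fun t => z - t ∈ Q).card : ℝ≥0∞) ∂μ
      ≤ ∫⁻ z : V, W.indicator (fun _ => ENNReal.ofReal M) z ∂μ := by
        refine lintegral_mono fun z => ?_
        by_cases hz : z ∈ W
        · rw [indicator_of_mem hz, ← ENNReal.ofReal_natCast]
          exact ENNReal.ofReal_le_ofReal (h1 z)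
        · have : (F.filter fun t => z - t ∈ Q) = ∅ := by
            rw [Finset.filter_eq_empty_iff]
            intro t ht hzt
            exact hz (h2 t ht z hzt)
          simp [this]
    _ = ENNReal.ofReal M * μ W := by
        rw [lintegral_indicator hW, setLIntegral_const]

end

theorem lim_ratio (a C : ℝ) (d : ℕ) :
    Tendsto (fun R : ℝ => a * ((R + C) / R) ^ d) atTop (𝓝 a) := by
  have h1 : Tendsto (fun R : ℝ => 1 + C * R⁻¹) atTop (𝓝 (1 + C * 0)) :=
    (tendsto_inv_atTop_zero.const_mul C).const_add 1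
  have h2 : Tendsto (fun R : ℝ => a * (1 + C * R⁻¹) ^ d) atTop (𝓝 (a * (1 + C * 0) ^ d)) :=
    (h1.pow d).const_mul a
  have e : a * (1 + C * 0) ^ d = a := by ring_nf
  rw [e] at h2
  refine h2.congr' ?_
  filter_upwards [eventually_gt_atTop (0 : ℝ)] with R hR
  congr 2
  field_simp

theorem t_AVG : S_AVG := by
  classical
  intro k m K T Λ V₀ hV hK hKne hyp
  have hH := haarG k m
  have hBorel : BorelSpace (G k m) := by infer_instance
  obtain ⟨k0, hk0⟩ := hKne
  have hKt : volume K ≠ ⊤ := hK.measure_lt_top.ne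
  set d := Module.finrank ℝ (G k m) with hd
  have step : ∀ ε : ℝ, 0 < ε →
      limsup (fun R : ℝ =>
        (∑' t : {t : G k m // t ∈ T ∧ (fun x => t + x) '' K ⊆ Metric.closedBall 0 R},
          volume ((fun x => (t : G k m) + x) '' K)) /
            volume (Metric.closedBall (0 : G k m) R)) atTop ≤
        ENNReal.ofReal ((1 + ε) / V₀) * volume K := by
    intro ε hε
    obtain ⟨ℓ, hℓ, h⟩ := hyp ε hε
    set Q : Set (G k m) := Λ.symm '' Metric.closedBall 0 ℓ with hQ
    have hQc : IsCompact Q := (isCompact_closedBall _ _).image Λ.symm.continuous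
    have hQt : volume Q ≠ ⊤ := hQc.measure_lt_top.ne
    have hQp : 0 < volume Q := by
      have h1 : (Λ : G k m → G k m) ⁻¹' Metric.ball 0 ℓ ⊆ Q := by
        intro x hx
        exact ⟨Λ x, Metric.ball_subset_closedBall hx, Λ.symm_apply_apply x⟩
      have h2 : IsOpen ((Λ : G k m → G k m) ⁻¹' Metric.ball 0 ℓ) :=
        Metric.isOpen_ball.preimage Λ.continuous
      have h3 : ((Λ : G k m → G k m) ⁻¹' Metric.ball 0 ℓ).Nonempty :=
        ⟨0, by simp [hℓ]⟩
      exact (h2.measure_pos volume h3).trans_le (measure_mono h1)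
    obtain ⟨q, hq⟩ := hQc.isBounded.exists_norm_le
    have hq0 : 0 ≤ q := by
      have h0 : (0 : G k m) ∈ Q := ⟨0, by simp [hℓ.le], by simp⟩
      exact (norm_nonneg _).trans (hq 0 h0)
    set v : ℝ := (volume Q).toReal with hv
    have hvpos : 0 < v := ENNReal.toReal_pos hQp.ne' hQt
    have hvQ : volume Q = ENNReal.ofReal v := (ENNReal.ofReal_toReal hQt).symm
    set C : ℝ := ‖k0‖ + q with hC
    have hC0 : 0 ≤ C := by positivity
    have key : ∀ (R : ℝ) (F : Finset (G k m)), 0 < R →
        (∀ t ∈ F, t ∈ T ∧ (fun x => t + x) '' K ⊆ Metric.closedBall 0 R) →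
        (F.card : ℝ≥0∞) ≤ ENNReal.ofReal ((1 + ε) / V₀) *
          volume (Metric.closedBall (0 : G k m) (R + C)) := by
      intro R F hR hF
      have h1 : ∀ z : G k m, ((F.filter fun t => z - t ∈ Q).card : ℝ) ≤ (1 + ε) * v / V₀ := by
        intro z
        rw [le_div_iff₀ hV]
        refine h (Λ z) (F.filter fun t => z - t ∈ Q) ?_
        intro t ht
        obtain ⟨ht1, w, hw, hwe⟩ := Finset.mem_filter.1 ht
        refine ⟨(hF t ht1).1, ?_⟩
        have h3 : Λ (z - t) = w := by rw [← hwe, Λ.apply_symm_apply]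
        rw [mem_closedBall_zero_iff] at hw
        rw [mem_closedBall_iff_norm, ← norm_neg, neg_sub, ← map_sub, h3]
        exact hw
      have h2 : ∀ t ∈ F, ∀ z : G k m, z - t ∈ Q → z ∈ Metric.closedBall (0 : G k m) (R + C) := by
        intro t ht z hz
        have h3 : t + k0 ∈ Metric.closedBall (0 : G k m) R := (hF t ht).2 ⟨k0, hk0, rfl⟩
        rw [mem_closedBall_zero_iff] at h3 ⊢
        have h4 := hq _ hz
        calc ‖z‖ = ‖(z - t) + ((t + k0) - k0)‖ := by congr 1; abel
          _ ≤ ‖z - t‖ + ‖(t + k0) - k0‖ := norm_add_le _ _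
          _ ≤ ‖z - t‖ + (‖t + k0‖ + ‖k0‖) := by gcongr; exact norm_sub_le _ _
          _ ≤ R + C := by rw [hC]; linarith
      have h5 := count (volume : Measure (G k m)) Q (Metric.closedBall 0 (R + C))
        hQc.measurableSet Metric.isClosed_closedBall.measurableSet ((1 + ε) * v / V₀) F h1 h2
      have h6 : (1 + ε) * v / V₀ = (1 + ε) / V₀ * v := by ring
      rw [h6, ENNReal.ofReal_mul (by positivity), hvQ, mul_right_comm] at h5
      have hv1 : ENNReal.ofReal v ≠ 0 := by simpa using hvpos
      exact (ENNReal.mul_le_mul_iff_left hv1 ENNReal.ofReal_ne_top).1 h5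
    have hbound : ∀ R : ℝ, 0 < R →
        (∑' t : {t : G k m // t ∈ T ∧ (fun x => t + x) '' K ⊆ Metric.closedBall 0 R},
          volume ((fun x => (t : G k m) + x) '' K)) /
            volume (Metric.closedBall (0 : G k m) R) ≤
        ENNReal.ofReal ((1 + ε) / V₀ * ((R + C) / R) ^ d) * volume K := by
      intro R hR
      simp only [vol_trans]
      have hb0 : volume (Metric.closedBall (0 : G k m) R) ≠ 0 :=
        (Metric.measure_closedBall_pos volume _ hR).ne'
      have hbt : volume (Metric.closedBall (0 : G k m) R) ≠ ⊤ :=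
        (isCompact_closedBall _ _).measure_lt_top.ne
      rw [ENNReal.div_le_iff hb0 hbt, ENNReal.tsum_eq_iSup_sum]
      apply iSup_le
      intro s
      rw [Finset.sum_const, nsmul_eq_mul]
      have hc := key R (s.map (Function.Embedding.subtype _)) hR (by
        intro t ht
        rw [Finset.mem_map] at ht
        obtain ⟨t', _, rfl⟩ := ht
        exact t'.2)
      rw [Finset.card_map] at hc
      have e1 : volume (Metric.closedBall (0 : G k m) (R + C)) =
          ENNReal.ofReal (((R + C) / R) ^ d) * volume (Metric.closedBall (0 : G k m) R) := by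
        rw [Measure.addHaar_closedBall _ _ (by positivity), Measure.addHaar_closedBall _ _ hR.le,
          ← hd, ← mul_assoc, ← ENNReal.ofReal_mul (by positivity)]
        congr 2
        rw [← mul_pow, div_mul_cancel₀ _ hR.ne']
      calc (s.card : ℝ≥0∞) * volume K
          ≤ (ENNReal.ofReal ((1 + ε) / V₀) *
              volume (Metric.closedBall (0 : G k m) (R + C))) * volume K := by gcongr
        _ = ENNReal.ofReal ((1 + ε) / V₀ * ((R + C) / R) ^ d) * volume K *
              volume (Metric.closedBall (0 : G k m) R) := by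
            rw [e1, ENNReal.ofReal_mul (by positivity)]
            ring
    have hlim : Tendsto (fun R : ℝ =>
        ENNReal.ofReal ((1 + ε) / V₀ * ((R + C) / R) ^ d) * volume K) atTop
        (𝓝 (ENNReal.ofReal ((1 + ε) / V₀) * volume K)) :=
      ENNReal.Tendsto.mul_const (ENNReal.tendsto_ofReal (lim_ratio _ C d)) (Or.inr hKt)
    rw [← hlim.limsup_eq]
    refine limsup_le_limsup ?_
    filter_upwards [eventually_gt_atTop (0 : ℝ)] with R hR
    exact hbound R hR
  have hlim2 : Tendsto (fun ε : ℝ => ENNReal.ofReal ((1 + ε) / V₀) * volume K) (𝓝[>] 0)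
      (𝓝 (ENNReal.ofReal ((1 + 0) / V₀) * volume K)) := by
    refine ENNReal.Tendsto.mul_const (ENNReal.tendsto_ofReal ?_) (Or.inr hKt)
    have hc : Continuous (fun ε : ℝ => (1 + ε) / V₀) := by fun_prop
    exact (hc.tendsto 0).mono_left nhdsWithin_le_nhds
  have hfin := ge_of_tendsto hlim2 (by
    filter_upwards [self_mem_nhdsWithin] with ε hε
    exact step ε hε)
  refine hfin.trans (le_of_eq ?_)
  rw [add_zero, one_div, ENNReal.ofReal_inv_of_pos hV, mul_comm, div_eq_mul_inv]

end Pool.Agent.E8helper9.TS
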